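import Pool.Agent.Lib.SLN.DefN

/-!
MP_00e23e_nt, project NL (all classes, no lock; helper2's note 5005), chapter S (helper78): the second Cauchy inequality without
lock. Final statement SecNStmt. The hypothesis is the pair bound: D gcd(q, q') for all pairs with the same ρ, and D ε gcd(q, q') for
the pairs with W(p, p') > W0 (SLN/DefN.lean: An, Wn, PS). The types of the primes (P1) do not enter; they follow from γ ≠ 0 in the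
application (γ restricted to the r with a fixed largest prime).
-/

namespace Pool.Agent.Lib.NLS

open Finset Pool.Agent.Lib.EH3 Pool.Agent.Lib.TB Pool.Agent.Results.MP_00e23e_nt Pool.Agent.Lib.MI

/-- the support of the coefficients, without lock -/
def SuN (ρ : ℕ → ℕ) (R0 R S r s1 s2 : ℕ) : Prop :=
  (R < r ∧ r ≤ 2 * R) ∧ (S < s1 ∧ s1 ≤ 2 * S) ∧ (S < s2 ∧ s2 ≤ 2 * S) ∧ (ρ r ∣ r ∧ R0 < ρ r ∧ ρ r ≤ 2 * R0)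

/-- Chapter S. The second Cauchy inequality without lock, the near pairs and all averages; only the pair bound is left. -/
def SecNStmt : Prop := ∃ C : ℝ, 0 < C ∧ ∃ A : ℕ, ∀ (X T D ε W0 : ℝ) (a : ℕ → ℕ → ℤ) (ρ : ℕ → ℕ)
    (g R S N H R0 t0 : ℕ) (Hs : Finset ℤ) (γ : ℤ → ℕ → ℕ → ℕ → ℂ) (ω : ℕ → ℕ → ℂ), Tau X T →
  0 ≤ D → 0 < ε → 1 ≤ W0 → 1 ≤ g → 1 ≤ R → 1 ≤ S → 1 ≤ N → 1 ≤ H → 1 ≤ R0 → 2 * R * g ≤ N →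
  8 * ((R : ℝ) * (S : ℝ) ^ 2) ≤ X →
  (∀ h ∈ Hs, h ≠ 0 ∧ |h| ≤ (H : ℤ)) → (∀ h r s1 s2, ‖γ h r s1 s2‖ ≤ 1) → (∀ n1 n2, ‖ω n1 n2‖ ≤ 1) →
  (∀ n1 n2, ω n1 n2 ≠ 0 → Nat.gcd n1 n2 ≤ t0) →
  (∀ h r s1 s2, h ∈ Hs → r ∈ Ioc R (2 * R) → s1 ∈ Ioc S (2 * S) → s2 ∈ Ioc S (2 * S) → γ h r s1 s2 ≠ 0 →
    SuN ρ R0 R S r s1 s2) →
  (∀ h h' r s1 s2 r' s1' s2', h ∈ Hs → h' ∈ Hs → γ h r s1 s2 ≠ 0 → γ h' r' s1' s2' ≠ 0 →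
    Nat.gcd s1 s2 = g → Nat.gcd s1' s2' = g → SuN ρ R0 R S r s1 s2 → SuN ρ R0 R S r' s1' s2' → ρ r = ρ r' →
    ‖SLN.PS a g N t0 h r s1 s2 h' r' s1' s2'‖ ≤ D * (Nat.gcd (r / ρ r) (r' / ρ r') : ℝ) ∧
    (W0 < (SLN.Wn (SLN.An g (r / ρ r) s1 s2) (SLN.An g (r' / ρ r') s1' s2') : ℝ) →
      ‖SLN.PS a g N t0 h r s1 s2 h' r' s1' s2'‖ ≤ D * ε * (Nat.gcd (r / ρ r) (r' / ρ r') : ℝ))) →
  ‖∑ h ∈ Hs, SL.TG a g h R S N (γ h) ω‖ ^ 2 ≤ C * T ^ A * (D * (N : ℝ) ^ 2 * (R : ℝ) ^ 2 * (S : ℝ) ^ 2 * (H : ℝ) ^ 2) *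
    (Real.sqrt W0 / (ε * (g : ℝ) ^ 2) + ε * (S : ℝ) ^ 2 / (R0 * (g : ℝ) ^ 5))

end Pool.Agent.Lib.NLS
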