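import Pool.Agent.Lib.NLS.SpecS

/-!
MP_00e23e_nt, project NL, chapter S, module Nlb: labels (ratios of the classes).
-/

set_option autoImplicit false

namespace Pool.Agent.Lib.NLS

open Finset Pool.Agent.Lib.EH3 Pool.Agent.Lib.TB Pool.Agent.Results.MP_00e23e_nt Pool.Agent.Lib.MI

private lemma Nlb_unit_int {a : ℤ} {k m : ℕ} (h : Int.gcd a (k : ℤ) = 1) (hm : m ∣ k) : IsUnit ((a : ℤ) : ZMod m) := by
  rw [ZMod.coe_int_isUnit_iff_isCoprime]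
  have h1 : IsCoprime a (k : ℤ) := Int.isCoprime_iff_gcd_eq_one.2 h
  exact (h1.of_isCoprime_of_dvd_right (Int.natCast_dvd_natCast.2 hm)).symm

private lemma Nlb_div {m : ℕ} {x y u v : ZMod m} (hu : IsUnit u) (h : x * u = y * v) (hy : IsUnit y) :
    v * u⁻¹ = x * y⁻¹ := by
  have h1 : v = x * u * y⁻¹ := by
    rw [h, mul_comm y v, mul_assoc, ZMod.mul_inv_of_unit y hy, mul_one]
  rw [h1]
  calc x * u * y⁻¹ * u⁻¹ = x * y⁻¹ * (u * u⁻¹) := by ring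
    _ = x * y⁻¹ := by rw [ZMod.mul_inv_of_unit u hu, mul_one]

theorem tNlb : NlbStmt := by
  intro a g r s1 s2 n1 n2 m hG hm
  obtain ⟨hsq, -, hg, -, hn2, -, ha2, hd⟩ := hG
  have hr0 : r ≠ 0 := fun h => hsq.ne_zero (by rw [h, zero_mul])
  have hs0 : s1 ≠ 0 := fun h => hsq.ne_zero (by rw [h, mul_zero])
  have hg0 : g ≠ 0 := fun h => hs0 (Nat.eq_zero_of_gcd_eq_zero_left (hg.trans h))
  have hm0 : m ≠ 0 := fun h => (mul_ne_zero hr0 hg0) (Nat.eq_zero_of_zero_dvd (h ▸ hm))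
  have : NeZero m := ⟨hm0⟩
  have hm2 : m ∣ r * s2 := hm.trans (Nat.mul_dvd_mul_left r (hg ▸ Nat.gcd_dvd_right s1 s2))
  have hu : IsUnit ((a r s2 : ℤ) : ZMod m) := Nlb_unit_int ha2 hm2
  have hy : IsUnit (n2 : ZMod m) := (ZMod.isUnit_iff_coprime n2 m).2 (hn2.coprime_dvd_right hm2)
  have hc : (n1 : ZMod m) * ((a r s2 : ℤ) : ZMod m) = (n2 : ZMod m) * ((a r s1 : ℤ) : ZMod m) := by
    have h1 : (m : ℤ) ∣ (n1 : ℤ) * a r s2 - (n2 : ℤ) * a r s1 := (Int.natCast_dvd_natCast.2 hm).trans hd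
    have h2 := (ZMod.intCast_zmod_eq_zero_iff_dvd _ m).2 h1
    push_cast at h2
    exact sub_eq_zero.1 h2
  have hl : ((a r s1 : ℤ) : ZMod m) * ((a r s2 : ℤ) : ZMod m)⁻¹ = (n1 : ZMod m) * (n2 : ZMod m)⁻¹ :=
    Nlb_div hu hc hy
  refine ⟨congrArg ZMod.val hl, ?_⟩
  rw [← ZMod.intCast_zmod_eq_zero_iff_dvd]
  unfold lb
  push_cast
  rw [ZMod.natCast_zmod_val, hl, mul_assoc, ZMod.inv_mul_of_unit _ hy, mul_one, sub_self]

end Pool.Agent.Lib.NLS
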