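import Pool.Agent.Lib.NLS.SpecS

/-! MP_00e23e_nt, Lib/NLS, module Nnr: the number of near indices. -/

set_option autoImplicit false

namespace Pool.Agent.Lib.NLS

open Finset Pool.Agent.Lib.EH3 Pool.Agent.Lib.TB Pool.Agent.Results.MP_00e23e_nt Pool.Agent.Lib.MI

private lemma Nnr_fac {ϱ g R S r s1 s2 : ℕ} (hg : 1 ≤ g) (hϱ : 1 ≤ ϱ) (hd : ϱ ∣ r) (hgc : Nat.gcd s1 s2 = g)
    (hr : R < r ∧ r ≤ 2 * R) (h1 : S < s1 ∧ s1 ≤ 2 * S) (h2 : S < s2 ∧ s2 ≤ 2 * S) :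
    ∃ q e f : ℕ, 1 ≤ q ∧ 1 ≤ e ∧ 1 ≤ f ∧ r = ϱ * q ∧ s1 = g * e ∧ s2 = g * f ∧ r / ϱ = q ∧ s1 / g = e ∧
      s2 / g = f ∧ R * S ^ 2 < (q * (e * f)) * (ϱ * g ^ 2) ∧ (q * (e * f)) * (ϱ * g ^ 2) ≤ 8 * (R * S ^ 2) := by
  obtain ⟨q, hq⟩ := hd
  obtain ⟨e, he⟩ : g ∣ s1 := hgc ▸ Nat.gcd_dvd_left s1 s2
  obtain ⟨f, hf⟩ : g ∣ s2 := hgc ▸ Nat.gcd_dvd_right s1 s2
  have hq0 : q ≠ 0 := by
    rintro rfl
    rw [mul_zero] at hq
    omega
  have he0 : e ≠ 0 := by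
    rintro rfl
    rw [mul_zero] at he
    omega
  have hf0 : f ≠ 0 := by
    rintro rfl
    rw [mul_zero] at hf
    omega
  have key : (q * (e * f)) * (ϱ * g ^ 2) = r * (s1 * s2) := by
    rw [hq, he, hf]; ring
  refine ⟨q, e, f, Nat.pos_of_ne_zero hq0, Nat.pos_of_ne_zero he0, Nat.pos_of_ne_zero hf0, hq, he, hf, ?_, ?_, ?_,
    ?_, ?_⟩
  · rw [hq]; exact Nat.mul_div_cancel_left q hϱ
  · rw [he]; exact Nat.mul_div_cancel_left e hg
  · rw [hf]; exact Nat.mul_div_cancel_left f hg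
  · rw [key]
    have h3 : (R + 1) * ((S + 1) * (S + 1)) ≤ r * (s1 * s2) :=
      Nat.mul_le_mul hr.1 (Nat.mul_le_mul h1.1 h2.1)
    have h4 : (R + 1) * ((S + 1) * (S + 1)) = R * S ^ 2 + (2 * (R * S) + R + S ^ 2 + 2 * S + 1) := by ring
    omega
  · rw [key]
    have h3 : r * (s1 * s2) ≤ (2 * R) * ((2 * S) * (2 * S)) :=
      Nat.mul_le_mul hr.2 (Nat.mul_le_mul h1.2 h2.2)
    have h4 : (2 * R) * ((2 * S) * (2 * S)) = 8 * (R * S ^ 2) := by ring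
    omega

/-- the common divisor and the cofactor -/
private lemma Nnr_gcd {A A' M Z : ℕ} {W0 : ℝ} (hW0 : 1 ≤ W0) (hA : 1 ≤ A) (hA' : 1 ≤ A')
    (h1 : Z < A * M) (h2 : A' * M ≤ 8 * Z) (hW : (SLN.Wn A A' : ℝ) ≤ W0) :
    ∃ d u : ℕ, d ∣ A ∧ 1 ≤ u ∧ (u : ℝ) ≤ 3 * Real.sqrt W0 ∧ A' = d * u := by
  obtain ⟨v, hv⟩ := Nat.gcd_dvd_left A A'
  obtain ⟨u, hu⟩ := Nat.gcd_dvd_right A A'
  have hd : 0 < Nat.gcd A A' := Nat.gcd_pos_of_pos_left _ hA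
  have hAA : A' < 8 * A := by
    have h3 : A' * M < 8 * A * M := by
      calc A' * M ≤ 8 * Z := h2
        _ < 8 * (A * M) := by omega
        _ = 8 * A * M := by ring
    exact lt_of_mul_lt_mul_right h3 (Nat.zero_le M)
  have hu0 : u ≠ 0 := by
    rintro rfl
    rw [mul_zero] at hu
    omega
  have hWe : SLN.Wn A A' = v * u := by
    unfold SLN.Wn
    have e1 : A / Nat.gcd A A' = v := Nat.div_eq_of_eq_mul_right hd hv
    have e2 : A' / Nat.gcd A A' = u := Nat.div_eq_of_eq_mul_right hd hu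
    rw [e1, e2]
  have huv : u < 8 * v := by
    have h3 : Nat.gcd A A' * u < Nat.gcd A A' * (8 * v) := by
      calc Nat.gcd A A' * u = A' := hu.symm
        _ < 8 * A := hAA
        _ = 8 * (Nat.gcd A A' * v) := by rw [← hv]
        _ = Nat.gcd A A' * (8 * v) := by ring
    exact lt_of_mul_lt_mul_left h3 (Nat.zero_le _)
  refine ⟨Nat.gcd A A', u, Nat.gcd_dvd_left A A', Nat.pos_of_ne_zero hu0, ?_, hu⟩
  rw [hWe] at hW
  push_cast at hW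
  have huR : (u : ℝ) ≤ 8 * v := by exact_mod_cast huv.le
  have hu0R : (0 : ℝ) ≤ u := Nat.cast_nonneg u
  have hs : Real.sqrt W0 ^ 2 = W0 := Real.sq_sqrt (by linarith)
  have hs0 : 0 ≤ Real.sqrt W0 := Real.sqrt_nonneg _
  have hsq : (u : ℝ) ^ 2 ≤ (3 * Real.sqrt W0) ^ 2 := by
    have h5 : (u : ℝ) * u ≤ 8 * v * u := mul_le_mul_of_nonneg_right huR hu0R
    have h6 : (3 * Real.sqrt W0) ^ 2 = 9 * W0 := by rw [mul_pow, hs]; norm_num
    rw [h6]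
    nlinarith
  exact le_of_sq_le_sq hsq (by positivity)

private lemma Nnr_Hs {H : ℕ} {Hs : Finset ℤ} (h : ∀ h ∈ Hs, h ≠ 0 ∧ |h| ≤ (H : ℤ)) : Hs.card ≤ 2 * H := by
  have h1 : Hs ⊆ (Icc (-(H : ℤ)) H).erase 0 := by
    intro x hx
    rw [mem_erase, mem_Icc]
    exact ⟨(h x hx).1, abs_le.1 (h x hx).2⟩
  have h2 := card_le_card h1
  rw [card_erase_of_mem (by rw [mem_Icc]; constructor <;> omega), Int.card_Icc] at h2
  omega

open Classical in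
theorem tNnr : NnrStmt := by
  intro X T W0 ρ ϱ g R0 R S H Hs I hT hW0 hg hR0 hX hHs hI p hp
  obtain ⟨hT1, _, hT3⟩ := hT
  have hT0 : (0 : ℝ) < T := by linarith
  obtain ⟨h, r, s1, s2⟩ := p
  obtain ⟨_, hgc, ⟨hr, hs1, hs2, hρd, hρ1, _⟩, hρ⟩ := hI _ hp
  simp only at hgc hr hs1 hs2 hρd hρ1 hρ ⊢
  rw [hρ] at hρd hρ1
  have hϱ : 1 ≤ ϱ := by omega
  obtain ⟨q, e, f, hq, he, hf, _, _, _, dq, de, df, lo, up⟩ := Nnr_fac hg hϱ hρd hgc hr hs1 hs2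
  set A : ℕ := q * (e * f) with hA
  have hA1 : 1 ≤ A := Nat.mul_pos hq (Nat.mul_pos he hf)
  have hM1 : 1 ≤ ϱ * g ^ 2 := Nat.mul_pos hϱ (pow_pos hg 2)
  have hAn : SLN.An g (r / ρ r) s1 s2 = A := by
    unfold SLN.An
    rw [hρ, dq, de, df]
  have hXb : ∀ B : ℕ, B * (ϱ * g ^ 2) ≤ 8 * (R * S ^ 2) → (B : ℝ) ≤ X := by
    intro B hB
    have h1 : B ≤ 8 * (R * S ^ 2) := le_trans (Nat.le_mul_of_pos_right B hM1) hB
    have h2 : (B : ℝ) ≤ 8 * ((R : ℝ) * (S : ℝ) ^ 2) := by exact_mod_cast h1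
    linarith
  have hAX : (A : ℝ) ≤ X := hXb A up
  set U : ℕ := ⌊3 * Real.sqrt W0⌋₊ with hU
  have hs0 : 0 ≤ 3 * Real.sqrt W0 := by positivity
  have hUr : (U : ℝ) ≤ 3 * Real.sqrt W0 := Nat.floor_le hs0
  set P : Finset (ℕ × ℕ) := (A.divisors ×ˢ Icc 1 U).filter (fun du => 1 ≤ du.1 * du.2 ∧ ((du.1 * du.2 : ℕ) : ℝ) ≤ X)
    with hP
  set K : Finset NL.Ip := P.biUnion (fun du => (Hs ×ˢ ((du.1 * du.2).divisors ×ˢ (du.1 * du.2).divisors)).image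
    (fun t => ((t.1, ϱ * t.2.1, g * t.2.2, g * (du.1 * du.2 / (t.2.1 * t.2.2))) : NL.Ip))) with hK
  have hsub : I.filter (fun p' => (SLN.Wn (SLN.An g (r / ρ r) s1 s2)
      (SLN.An g (p'.2.1 / ρ p'.2.1) p'.2.2.1 p'.2.2.2) : ℝ) ≤ W0) ⊆ K := by
    intro p' hp'
    rw [mem_filter] at hp'
    obtain ⟨hp1, hp2⟩ := hp'
    obtain ⟨h', r', s1', s2'⟩ := p'
    obtain ⟨hh', hgc', ⟨hr', hs1', hs2', hρd', _, _⟩, hρ'⟩ := hI _ hp1
    simp only at hh' hgc' hr' hs1' hs2' hρd' hρ' hp2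
    rw [hρ'] at hρd'
    obtain ⟨q', e', f', hq', he', hf', er, es1, es2, dq', de', df', lo', up'⟩ :=
      Nnr_fac hg hϱ hρd' hgc' hr' hs1' hs2'
    have hA1' : 1 ≤ q' * (e' * f') := Nat.mul_pos hq' (Nat.mul_pos he' hf')
    have hAn' : SLN.An g (r' / ρ r') s1' s2' = q' * (e' * f') := by
      unfold SLN.An
      rw [hρ', dq', de', df']
    rw [hAn, hAn'] at hp2
    obtain ⟨d, u, hdA, hu1, hu2, hdu⟩ := Nnr_gcd hW0 hA1 hA1' lo up' hp2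
    rw [hK, mem_biUnion]
    refine ⟨(d, u), ?_, ?_⟩
    · rw [hP, mem_filter, mem_product, Nat.mem_divisors, mem_Icc]
      refine ⟨⟨⟨hdA, by omega⟩, hu1, Nat.le_floor hu2⟩, ?_, ?_⟩
      · show 1 ≤ d * u
        rw [← hdu]; exact hA1'
      · show ((d * u : ℕ) : ℝ) ≤ X
        rw [← hdu]; exact hXb _ up'
    · rw [mem_image]
      refine ⟨(h', q', e'), ?_, ?_⟩
      · rw [mem_product, mem_product, Nat.mem_divisors, Nat.mem_divisors]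
        show h' ∈ Hs ∧ (q' ∣ d * u ∧ d * u ≠ 0) ∧ (e' ∣ d * u ∧ d * u ≠ 0)
        rw [← hdu]
        exact ⟨hh', ⟨Dvd.intro _ rfl, by omega⟩, ⟨Dvd.intro (q' * f') (by ring), by omega⟩⟩
      · show ((h', ϱ * q', g * e', g * (d * u / (q' * e'))) : NL.Ip) = (h', r', s1', s2')
        have e9 : d * u / (q' * e') = f' := by
          rw [← hdu]
          refine Nat.div_eq_of_eq_mul_right (Nat.mul_pos hq' he') ?_
          ring
        rw [e9, er, es1, es2]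
  have hc1 : ((K.card : ℕ) : ℝ) ≤ (P.card : ℝ) * (2 * H * (T * T)) := by
    have h1 : K.card ≤ ∑ du ∈ P, ((Hs ×ˢ ((du.1 * du.2).divisors ×ˢ (du.1 * du.2).divisors)).image
      (fun t => ((t.1, ϱ * t.2.1, g * t.2.2, g * (du.1 * du.2 / (t.2.1 * t.2.2))) : NL.Ip))).card := card_biUnion_le
    have h2 : ((K.card : ℕ) : ℝ) ≤ ∑ du ∈ P, (((Hs ×ˢ ((du.1 * du.2).divisors ×ˢ (du.1 * du.2).divisors)).image
      (fun t => ((t.1, ϱ * t.2.1, g * t.2.2, g * (du.1 * du.2 / (t.2.1 * t.2.2))) : NL.Ip))).card : ℝ) := by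
      exact_mod_cast h1
    refine h2.trans ?_
    calc ∑ du ∈ P, (((Hs ×ˢ ((du.1 * du.2).divisors ×ˢ (du.1 * du.2).divisors)).image
          (fun t => ((t.1, ϱ * t.2.1, g * t.2.2, g * (du.1 * du.2 / (t.2.1 * t.2.2))) : NL.Ip))).card : ℝ)
        ≤ ∑ du ∈ P, (2 * H * (T * T)) := by
          refine sum_le_sum fun du hdu => ?_
          rw [hP, mem_filter] at hdu
          have h3 : ((du.1 * du.2).divisors.card : ℝ) ≤ T := hT3 _ hdu.2.1 hdu.2.2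
          have h4 : (Hs.card : ℝ) ≤ 2 * H := by exact_mod_cast Nnr_Hs hHs
          have h5 := card_image_le (s := Hs ×ˢ ((du.1 * du.2).divisors ×ˢ (du.1 * du.2).divisors))
            (f := fun t => ((t.1, ϱ * t.2.1, g * t.2.2, g * (du.1 * du.2 / (t.2.1 * t.2.2))) : NL.Ip))
          rw [card_product, card_product] at h5
          have h6 : (((Hs ×ˢ ((du.1 * du.2).divisors ×ˢ (du.1 * du.2).divisors)).image
            (fun t => ((t.1, ϱ * t.2.1, g * t.2.2, g * (du.1 * du.2 / (t.2.1 * t.2.2))) : NL.Ip))).card : ℝ) ≤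
            (Hs.card : ℝ) * (((du.1 * du.2).divisors.card : ℝ) * ((du.1 * du.2).divisors.card : ℝ)) := by
            exact_mod_cast h5
          refine h6.trans ?_
          have h7 : (0 : ℝ) ≤ ((du.1 * du.2).divisors.card : ℝ) := Nat.cast_nonneg _
          have h8 : (0 : ℝ) ≤ 2 * H := mul_nonneg zero_le_two (Nat.cast_nonneg _)
          exact mul_le_mul h4 (mul_le_mul h3 h3 h7 hT0.le) (mul_nonneg h7 h7) h8
      _ = (P.card : ℝ) * (2 * H * (T * T)) := by rw [sum_const, nsmul_eq_mul]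
  have hc2 : (P.card : ℝ) ≤ T * (3 * Real.sqrt W0) := by
    have h1 : P.card ≤ A.divisors.card * U := by
      have h2 : P.card ≤ (A.divisors ×ˢ Icc 1 U).card := card_le_card (filter_subset _ _)
      rw [card_product, Nat.card_Icc, Nat.add_sub_cancel] at h2
      exact h2
    have h2 : (P.card : ℝ) ≤ (A.divisors.card : ℝ) * U := by exact_mod_cast h1
    refine h2.trans ?_
    have h3 : (A.divisors.card : ℝ) ≤ T := hT3 A hA1 hAX
    exact mul_le_mul h3 hUr (Nat.cast_nonneg _) hT0.le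
  have hc3 : ((I.filter (fun p' => (SLN.Wn (SLN.An g (r / ρ r) s1 s2)
      (SLN.An g (p'.2.1 / ρ p'.2.1) p'.2.2.1 p'.2.2.2) : ℝ) ≤ W0)).card : ℝ) ≤ (K.card : ℝ) := by
    exact_mod_cast card_le_card hsub
  refine hc3.trans (hc1.trans ?_)
  calc (P.card : ℝ) * (2 * H * (T * T)) ≤ T * (3 * Real.sqrt W0) * (2 * H * (T * T)) :=
        mul_le_mul_of_nonneg_right hc2 (by positivity)
    _ = 6 * T ^ 3 * Real.sqrt W0 * H := by ring

end Pool.Agent.Lib.NLS
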