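import Pool.Agent.Lib.NLS.SpecS

/-! MP_00e23e_nt, project NL, chapter S, module Nrh: the sum for one ϱ (assembly). -/

set_option autoImplicit false

namespace Pool.Agent.Lib.NLS

open Finset Pool.Agent.Lib.EH3 Pool.Agent.Lib.TB Pool.Agent.Results.MP_00e23e_nt Pool.Agent.Lib.MI

/-- a nonzero term forces the congruence -/
private lemma Nrh_ne {a : ℕ → ℕ → ℤ} {t0 g : ℕ} {p : NL.Ip} {n : ℕ × ℕ} (h : Fr a t0 g p n ≠ 0) :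
    SL.Gg a g p.2.1 p.2.2.1 p.2.2.2 n.1 n.2 := by
  rw [Fr] at h
  split_ifs at h with h1
  · rw [SL.Fp] at h
    split_ifs at h with h2
    · exact h2
    · exact absurd rfl h
  · exact absurd rfl h

/-- the final computation -/
private lemma Nrh_alg {T D ε W N R S H R0 g c : ℝ} (hT : 1 ≤ T) (hD : 0 ≤ D) (hε : 0 < ε) (hW : 0 ≤ W)
    (hN : 0 < N) (hR : 0 < R) (hS : 0 < S) (hH : 0 < H) (hR0 : 0 < R0) (hg : 0 < g) (hc0 : 0 ≤ c)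
    (hc : c ≤ 16 * (H * R * S ^ 2) / (R0 * g ^ 2)) :
    4 * (2 * N ^ 2 / (R0 * g)) * (2 * R0 * g) * c * D * T * (2 * R / R0) * (6 * T ^ 3 * W * H) / ε +
      4 * (2 * N ^ 2 / (R0 * g)) * D * ε * T ^ 2 * c ^ 2 ≤
    3072 * T ^ 4 * (D * N ^ 2 * R ^ 2 * S ^ 2 * H ^ 2) *
      (W / (ε * g ^ 2) + ε * S ^ 2 / (R0 * g ^ 5)) / R0 ^ 2 := by
  have hT0 : 0 < T := by linarith
  obtain ⟨c0, hc0'⟩ : ∃ c0 : ℝ, c0 = 16 * (H * R * S ^ 2) / (R0 * g ^ 2) := ⟨_, rfl⟩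
  rw [← hc0'] at hc
  have e1 : 4 * (2 * N ^ 2 / (R0 * g)) * (2 * R0 * g) * c * D * T * (2 * R / R0) * (6 * T ^ 3 * W * H) / ε ≤
      4 * (2 * N ^ 2 / (R0 * g)) * (2 * R0 * g) * c0 * D * T * (2 * R / R0) * (6 * T ^ 3 * W * H) / ε := by
    gcongr
  have e2 : 4 * (2 * N ^ 2 / (R0 * g)) * D * ε * T ^ 2 * c ^ 2 ≤
      4 * (2 * N ^ 2 / (R0 * g)) * D * ε * T ^ 2 * c0 ^ 2 := by
    gcongr
  have e3 : 4 * (2 * N ^ 2 / (R0 * g)) * (2 * R0 * g) * c0 * D * T * (2 * R / R0) * (6 * T ^ 3 * W * H) / ε =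
      3072 * T ^ 4 * (D * N ^ 2 * R ^ 2 * S ^ 2 * H ^ 2) * (W / (ε * g ^ 2)) / R0 ^ 2 := by
    rw [hc0']
    field_simp
    ring
  have e4 : 4 * (2 * N ^ 2 / (R0 * g)) * D * ε * T ^ 2 * c0 ^ 2 =
      2048 * T ^ 2 * (D * N ^ 2 * R ^ 2 * S ^ 2 * H ^ 2) * (ε * S ^ 2 / (R0 * g ^ 5)) / R0 ^ 2 := by
    rw [hc0']
    field_simp
    ring
  have e5 : 2048 * T ^ 2 * (D * N ^ 2 * R ^ 2 * S ^ 2 * H ^ 2) * (ε * S ^ 2 / (R0 * g ^ 5)) / R0 ^ 2 ≤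
      3072 * T ^ 4 * (D * N ^ 2 * R ^ 2 * S ^ 2 * H ^ 2) * (ε * S ^ 2 / (R0 * g ^ 5)) / R0 ^ 2 := by
    have h1 : T ^ 2 ≤ T ^ 4 := pow_le_pow_right₀ hT (by norm_num)
    have h2 : 2048 * T ^ 2 ≤ 3072 * T ^ 4 := by nlinarith [sq_nonneg T]
    gcongr
  calc _ ≤ _ := add_le_add (e1.trans (le_of_eq e3)) ((e2.trans (le_of_eq e4)).trans e5)
    _ = _ := by ring

/-- the data of the abstract inequality -/
private lemma Nrh_cor (h2 : NlbStmt) (h3 : NbxStmt) (h5 : NnrStmt) {X T D ε W0 : ℝ} {a : ℕ → ℕ → ℤ}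
    {ρ : ℕ → ℕ} {ϱ g R S N H R0 t0 : ℕ} {Hs : Finset ℤ} {I : Finset NL.Ip} (hT : Tau X T)
    (hD : 0 ≤ D) (hε : 0 < ε) (hW : 1 ≤ W0) (hg : 1 ≤ g) (hS : 1 ≤ S) (hR0 : 1 ≤ R0)
    (hRN : 2 * R * g ≤ N) (hX : 8 * ((R : ℝ) * (S : ℝ) ^ 2) ≤ X)
    (hHs : ∀ h ∈ Hs, h ≠ 0 ∧ |h| ≤ (H : ℤ)) (hI : In ρ ϱ g R0 R S Hs I) (hϱ1 : R0 < ϱ) (hϱ2 : ϱ ≤ 2 * R0)
    (hp1 : ∀ p ∈ I, ∀ p' ∈ I, NL.Pr ((Ioc N (2 * N)) ×ˢ (Ioc N (2 * N))) (Fr a t0 g) p p' ≤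
      D * (Nat.gcd (p.2.1 / ρ p.2.1) (p'.2.1 / ρ p'.2.1) : ℝ))
    (hp2 : ∀ p ∈ I, ∀ p' ∈ I, W0 < (SLN.Wn (SLN.An g (p.2.1 / ρ p.2.1) p.2.2.1 p.2.2.2)
      (SLN.An g (p'.2.1 / ρ p'.2.1) p'.2.2.1 p'.2.2.2) : ℝ) →
      NL.Pr ((Ioc N (2 * N)) ×ˢ (Ioc N (2 * N))) (Fr a t0 g) p p' ≤
      D * ε * (Nat.gcd (p.2.1 / ρ p.2.1) (p'.2.1 / ρ p'.2.1) : ℝ)) :
    NL.Cor I ((Ioc N (2 * N)) ×ˢ (Ioc N (2 * N))) (Fr a t0 g) (fun p => p.2.1 / ρ p.2.1)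
      (fun k p => lb a (ϱ * g * k) p.2.1 p.2.2.1 p.2.2.2)
      (fun p p' => (SLN.Wn (SLN.An g (p.2.1 / ρ p.2.1) p.2.2.1 p.2.2.2)
        (SLN.An g (p'.2.1 / ρ p'.2.1) p'.2.2.1 p'.2.2.2) : ℝ) ≤ W0)
      (2 * (N : ℝ) ^ 2 / (R0 * g)) (2 * R0 * g) (6 * T ^ 3 * Real.sqrt W0 * H) T D ε (2 * R / R0) := by
  classical
  have hT1 : 1 ≤ T := hT.1
  have hR0' : (0 : ℝ) < R0 := by exact_mod_cast hR0
  have hg' : (0 : ℝ) < g := by exact_mod_cast hg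
  have hϱ0 : 0 < ϱ := by omega
  -- the facts of one index
  have hfac : ∀ p ∈ I, ϱ * (p.2.1 / ρ p.2.1) = p.2.1 ∧ 1 ≤ p.2.1 / ρ p.2.1 ∧ p.2.1 ≤ 2 * R := by
    intro p hp
    obtain ⟨_, _, ⟨⟨s1, s2⟩, _, _, s3, s4, s5⟩, i4⟩ := hI p hp
    rw [i4] at s3 ⊢
    refine ⟨Nat.mul_div_cancel' s3, ?_, s2⟩
    exact Nat.div_pos (Nat.le_of_dvd (by omega) s3) hϱ0
  have hdvd : ∀ p ∈ I, ∀ k : ℕ, k ∣ p.2.1 / ρ p.2.1 → ϱ * g * k ∣ p.2.1 * g := by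
    intro p hp k hk
    obtain ⟨f1, f2, f3⟩ := hfac p hp
    obtain ⟨j, hj⟩ := hk
    refine ⟨j, ?_⟩
    rw [← f1, hj]
    ring
  refine ⟨⟨by positivity, by positivity, by positivity, hT1, hD, hε⟩, ?_, ?_, ?_, ?_, ?_, hp1, ?_⟩
  · intro p hp
    obtain ⟨f1, f2, f3⟩ := hfac p hp
    have f4 : p.2.1 / ρ p.2.1 ≤ 2 * R := (Nat.div_le_self _ _).trans f3
    refine ⟨f2, ?_, ?_⟩
    · rw [le_div_iff₀ hR0']
      have h1 : (p.2.1 / ρ p.2.1) * R0 ≤ 2 * R := by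
        calc (p.2.1 / ρ p.2.1) * R0 ≤ (p.2.1 / ρ p.2.1) * ϱ := Nat.mul_le_mul_left _ hϱ1.le
          _ = p.2.1 := by rw [mul_comm]; exact f1
          _ ≤ 2 * R := f3
      exact_mod_cast h1
    · refine hT.2.2 _ f2 ?_
      have h1 : ((p.2.1 / ρ p.2.1 : ℕ) : ℝ) ≤ 2 * (R : ℝ) := by exact_mod_cast f4
      have h2 : (1 : ℝ) ≤ (S : ℝ) ^ 2 := by
        have : (1 : ℝ) ≤ S := by exact_mod_cast hS
        nlinarith
      have h3 : (R : ℝ) * 1 ≤ (R : ℝ) * (S : ℝ) ^ 2 := mul_le_mul_of_nonneg_left h2 (Nat.cast_nonneg _)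
      have h4 : (0 : ℝ) ≤ R := Nat.cast_nonneg _
      linarith
  · intro k l hk
    by_cases hex : ∃ p0 ∈ I, k ∣ p0.2.1 / ρ p0.2.1
    · obtain ⟨p0, hp0, hk0⟩ := hex
      obtain ⟨f1, f2, f3⟩ := hfac p0 hp0
      have hm1 : 1 ≤ ϱ * g * k := Nat.mul_pos (Nat.mul_pos hϱ0 hg) hk
      have hm2 : ϱ * g * k ≤ N := by
        have h1 : k ≤ p0.2.1 / ρ p0.2.1 := Nat.le_of_dvd f2 hk0
        calc ϱ * g * k ≤ ϱ * g * (p0.2.1 / ρ p0.2.1) := Nat.mul_le_mul_left _ h1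
          _ = (ϱ * (p0.2.1 / ρ p0.2.1)) * g := by ring
          _ = p0.2.1 * g := by rw [f1]
          _ ≤ 2 * R * g := Nat.mul_le_mul_right _ f3
          _ ≤ N := hRN
      refine ⟨((Ioc N (2 * N)) ×ˢ (Ioc N (2 * N))).filter
        (fun n => ((ϱ * g * k : ℕ) : ℤ) ∣ (n.1 : ℤ) - (l : ℤ) * n.2), ?_, ?_⟩
      · have hc := h3 N (ϱ * g * k) (l : ℤ) hm1 hm2
        obtain ⟨c, hcdef⟩ : ∃ c : ℕ, c = (((Ioc N (2 * N)) ×ˢ (Ioc N (2 * N))).filter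
          (fun n => ((ϱ * g * k : ℕ) : ℤ) ∣ (n.1 : ℤ) - (l : ℤ) * n.2)).card := ⟨_, rfl⟩
        rw [← hcdef] at hc ⊢
        have hk' : (0 : ℝ) < k := by exact_mod_cast hk
        rw [div_div, le_div_iff₀ (by positivity)]
        have h1 : c * (R0 * g * k) ≤ 2 * N ^ 2 := by
          calc c * (R0 * g * k) ≤ c * (ϱ * g * k) := by
                refine Nat.mul_le_mul_left _ (Nat.mul_le_mul_right _ (Nat.mul_le_mul_right _ hϱ1.le))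
            _ = ϱ * g * k * c := by ring
            _ ≤ 2 * N ^ 2 := hc
        exact_mod_cast h1
      · intro p hp hkp hl n hn hF
        have hG := Nrh_ne hF
        have hc := (h2 a g p.2.1 p.2.2.1 p.2.2.2 n.1 n.2 (ϱ * g * k) hG (hdvd p hp k hkp)).2
        rw [mem_filter]
        refine ⟨hn, ?_⟩
        rw [← hl]
        exact hc
    · refine ⟨∅, ?_, ?_⟩
      · rw [card_empty, Nat.cast_zero]
        positivity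
      · intro p hp hkp
        exact absurd ⟨p, hp, hkp⟩ hex
  · have hne : NeZero (ϱ * g * 1) := ⟨by
      rw [mul_one]
      exact (Nat.mul_pos hϱ0 hg).ne'⟩
    have hsub : I.image (fun p : NL.Ip => lb a (ϱ * g * 1) p.2.1 p.2.2.1 p.2.2.2) ⊆ range (ϱ * g * 1) := by
      intro v hv
      rw [mem_image] at hv
      obtain ⟨p, _, rfl⟩ := hv
      rw [mem_range, lb]
      exact ZMod.val_lt _
    have hcard := card_le_card hsub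
    rw [card_range, mul_one] at hcard
    have h1 : (I.image (fun p : NL.Ip => lb a (ϱ * g * 1) p.2.1 p.2.2.1 p.2.2.2)).card ≤ 2 * R0 * g :=
      (by simpa using hcard : _ ≤ ϱ * g).trans (Nat.mul_le_mul_right _ hϱ2)
    exact_mod_cast h1
  · intro p hp
    have h := h5 X T W0 ρ ϱ g R0 R S H Hs I hT hW hg hR0 hX hHs hI p hp
    convert h using 3
  · intro p hp p' hp' hPr k hk hk'
    rw [NL.Pr, norm_ne_zero_iff] at hPr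
    obtain ⟨n, _, hn⟩ := exists_ne_zero_of_sum_ne_zero hPr
    have hG := Nrh_ne (left_ne_zero_of_mul hn)
    have hG' : SL.Gg a g p'.2.1 p'.2.2.1 p'.2.2.2 n.1 n.2 := by
      refine Nrh_ne (t0 := t0) (p := p') (n := n) ?_
      intro h0
      refine right_ne_zero_of_mul hn ?_
      rw [h0, map_zero]
    rw [(h2 a g p.2.1 p.2.2.1 p.2.2.2 n.1 n.2 (ϱ * g * k) hG (hdvd p hp k hk)).1,
      (h2 a g p'.2.1 p'.2.2.1 p'.2.2.2 n.1 n.2 (ϱ * g * k) hG' (hdvd p' hp' k hk')).1]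
  · intro p hp p' hp' hn
    exact hp2 p hp p' hp' (not_le.1 hn)

theorem tNrh (h1 : NL.SabStmt) (h2 : NlbStmt) (h3 : NbxStmt) (h4 : NszStmt) (h5 : NnrStmt) : NrhStmt := by
  classical
  intro X T D ε W0 a ρ ϱ g R S N H R0 t0 Hs I γ ω hT hD hε hW hg hR hS hN hH hR0 hRN hX hHs hI hγ hω hp1 hp2
  have hT1 : 1 ≤ T := hT.1
  have hR' : (0 : ℝ) < R := by exact_mod_cast hR
  have hS' : (0 : ℝ) < S := by exact_mod_cast hS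
  have hN' : (0 : ℝ) < N := by exact_mod_cast hN
  have hH' : (0 : ℝ) < H := by exact_mod_cast hH
  have hR0' : (0 : ℝ) < R0 := by exact_mod_cast hR0
  have hg' : (0 : ℝ) < g := by exact_mod_cast hg
  rcases I.eq_empty_or_nonempty with hI0 | ⟨p0, hp0⟩
  · rw [hI0, sum_empty, norm_zero, zero_pow two_ne_zero]
    positivity
  obtain ⟨_, _, ⟨_, _, _, _, s4, s5⟩, i4⟩ := hI p0 hp0
  rw [i4] at s4 s5
  have hcor := Nrh_cor h2 h3 h5 hT hD hε hW hg hS hR0 hRN hX hHs hI s4 s5 hp1 hp2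
  have hmain := h1 I ((Ioc N (2 * N)) ×ˢ (Ioc N (2 * N))) (Fr a t0 g) _ _ _ _ _ _ _ _ _ _
    (fun p => if p ∈ I then γ p else 0) ω hcor (by
      intro p
      by_cases hp : p ∈ I
      · simpa [hp] using hγ p hp
      · simp [hp]) hω
  have hs : ∑ p ∈ I, (fun p => if p ∈ I then γ p else 0) p *
      ∑ n ∈ (Ioc N (2 * N)) ×ˢ (Ioc N (2 * N)), ω n * Fr a t0 g p n =
      ∑ p ∈ I, γ p * ∑ n ∈ (Ioc N (2 * N)) ×ˢ (Ioc N (2 * N)), ω n * Fr a t0 g p n := by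
    refine sum_congr rfl fun p hp => ?_
    simp only [hp, if_true]
  rw [hs] at hmain
  refine hmain.trans ?_
  have hcard := h4 ρ ϱ g R0 R S H Hs I hg hR0 hHs hI
  have := Nrh_alg (W := Real.sqrt W0) hT1 hD hε (Real.sqrt_nonneg _) hN' hR' hS' hH' hR0' hg'
    (Nat.cast_nonneg I.card) hcard
  exact this

end Pool.Agent.Lib.NLS
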