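import Pool.Agent.Lib.NLS.SpecS

/-!
MP_00e23e_nt, project NL, chapter S: module Nse, the final statement SecNStmt (model: Lib/SLH/Hse.lean).
-/

set_option autoImplicit false

namespace Pool.Agent.Lib.NLS

open Finset Pool.Agent.Lib.EH3 Pool.Agent.Lib.TB Pool.Agent.Results.MP_00e23e_nt Pool.Agent.Lib.MI

open Classical in
/-- all indices -/
private noncomputable def Nse_I (g R S : ℕ) (Hs : Finset ℤ) (γ : ℤ → ℕ → ℕ → ℕ → ℂ) :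
    Finset NL.Ip :=
  (Hs ×ˢ (Ioc R (2 * R) ×ˢ (Ioc S (2 * S) ×ˢ Ioc S (2 * S)))).filter
    (fun p => γ p.1 p.2.1 p.2.2.1 p.2.2.2 ≠ 0 ∧ Nat.gcd p.2.2.1 p.2.2.2 = g)

open Classical in
private lemma Nse_in (a : ℕ → ℕ → ℤ) (g : ℕ) (h : ℤ) (r s1 s2 N : ℕ) (ω : ℕ → ℕ → ℂ) :
    (∑ n1 ∈ Ioc N (2 * N), ∑ n2 ∈ Ioc N (2 * N),
      if SL.Gg a g r s1 s2 n1 n2 then ω n1 n2 * SL.fg a h g r s1 s2 n1 n2 else 0) =
    ∑ n ∈ (Ioc N (2 * N)) ×ˢ (Ioc N (2 * N)), ω n.1 n.2 * SL.Fp a g h r s1 s2 n.1 n.2 := by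
  rw [sum_product]
  refine sum_congr rfl fun n1 _ => sum_congr rfl fun n2 _ => ?_
  rw [SL.Fp, mul_ite, mul_zero]

private lemma Nse_om (a : ℕ → ℕ → ℤ) (t0 g : ℕ) (p : NL.Ip) (ω : ℕ → ℕ → ℂ)
    (hω0 : ∀ n1 n2, ω n1 n2 ≠ 0 → Nat.gcd n1 n2 ≤ t0) (n : ℕ × ℕ) :
    ω n.1 n.2 * Fr a t0 g p n = ω n.1 n.2 * SL.Fp a g p.1 p.2.1 p.2.2.1 p.2.2.2 n.1 n.2 := by
  by_cases hn : Nat.gcd n.1 n.2 ≤ t0
  · rw [Fr, if_pos hn]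
  · have h0 : ω n.1 n.2 = 0 := by
      by_contra h1
      exact hn (hω0 _ _ h1)
    rw [h0, zero_mul, zero_mul]

private lemma Nse_pr (a : ℕ → ℕ → ℤ) (t0 g N : ℕ) (p p' : NL.Ip) :
    NL.Pr ((Ioc N (2 * N)) ×ˢ (Ioc N (2 * N))) (Fr a t0 g) p p' =
    ‖SLN.PS a g N t0 p.1 p.2.1 p.2.2.1 p.2.2.2 p'.1 p'.2.1 p'.2.2.1 p'.2.2.2‖ := by
  rw [NL.Pr, SLN.PS, sum_product]
  congr 1
  refine sum_congr rfl fun n1 _ => sum_congr rfl fun n2 _ => ?_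
  by_cases hn : Nat.gcd n1 n2 ≤ t0
  · rw [Fr, Fr, if_pos hn, if_pos hn, if_pos hn]
  · rw [Fr, if_neg hn, if_neg hn, zero_mul]

private lemma Nse_split (a : ℕ → ℕ → ℤ) (t0 g R S N : ℕ) (Hs : Finset ℤ)
    (γ : ℤ → ℕ → ℕ → ℕ → ℂ) (ω : ℕ → ℕ → ℂ)
    (hω0 : ∀ n1 n2, ω n1 n2 ≠ 0 → Nat.gcd n1 n2 ≤ t0) :
    ∑ h ∈ Hs, SL.TG a g h R S N (γ h) ω =
    ∑ p ∈ Nse_I g R S Hs γ, γ p.1 p.2.1 p.2.2.1 p.2.2.2 *
      ∑ n ∈ (Ioc N (2 * N)) ×ˢ (Ioc N (2 * N)), ω n.1 n.2 * Fr a t0 g p n := by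
  classical
  simp only [Nse_om a t0 g _ ω hω0]
  rw [Nse_I, sum_filter_of_ne, sum_product]
  · refine sum_congr rfl fun h _ => ?_
    rw [SL.TG, sum_product]
    refine sum_congr rfl fun r _ => ?_
    rw [sum_product]
    refine sum_congr rfl fun s1 _ => sum_congr rfl fun s2 _ => ?_
    rw [Nse_in]
  · intro p _ hp
    have h1 := left_ne_zero_of_mul hp
    have h2 := right_ne_zero_of_mul hp
    refine ⟨h1, ?_⟩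
    obtain ⟨n, _, hn⟩ := exists_ne_zero_of_sum_ne_zero h2
    have h3 := right_ne_zero_of_mul hn
    rw [SL.Fp] at h3
    split_ifs at h3 with hG
    · exact hG.2.2.1
    · exact absurd rfl h3

private lemma Nse_cls (I : Finset NL.Ip) (D : Finset ℕ)
    (κ : NL.Ip → ℕ) (hκ : ∀ p ∈ I, κ p ∈ D) (t : NL.Ip → ℂ) (B : ℝ)
    (hB : ∀ c ∈ D, ‖∑ p ∈ I.filter (fun p => κ p = c), t p‖ ^ 2 ≤ B) :
    ‖∑ p ∈ I, t p‖ ^ 2 ≤ (D.card : ℝ) ^ 2 * B := by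
  rw [← sum_fiberwise_of_maps_to hκ t]
  have h1 : ‖∑ c ∈ D, ∑ p ∈ I.filter (fun p => κ p = c), t p‖ ^ 2 ≤
      (∑ c ∈ D, ‖∑ p ∈ I.filter (fun p => κ p = c), t p‖) ^ 2 :=
    pow_le_pow_left₀ (norm_nonneg _) (norm_sum_le _ _) 2
  have h2 := sq_sum_le_card_mul_sum_sq (s := D)
    (f := fun c => ‖∑ p ∈ I.filter (fun p => κ p = c), t p‖)
  have h3 : ∑ c ∈ D, ‖∑ p ∈ I.filter (fun p => κ p = c), t p‖ ^ 2 ≤ D.card • B :=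
    sum_le_card_nsmul _ _ _ hB
  rw [nsmul_eq_mul] at h3
  have h4 := mul_le_mul_of_nonneg_left h3 (Nat.cast_nonneg D.card : (0 : ℝ) ≤ D.card)
  have h5 : (D.card : ℝ) * ((D.card : ℝ) * B) = (D.card : ℝ) ^ 2 * B := by ring
  rw [h5] at h4
  exact h1.trans (h2.trans h4)

theorem tNse (h1 : NrhStmt) : NseStmt := by
  classical
  refine ⟨3072, by norm_num, 4, ?_⟩
  intro X T D ε W0 a ρ g R S N H R0 t0 Hs γ ω hT hD hε hW hg hR hS hN hH hR0 hRN hX hHs hγ hω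
    hω0 hSu hpair
  have hT1 : 1 ≤ T := hT.1
  have hT0 : (0 : ℝ) ≤ T := by linarith
  have hR0' : (0 : ℝ) < R0 := by exact_mod_cast hR0
  rw [Nse_split a t0 g R S N Hs γ ω hω0]
  set I := Nse_I g R S Hs γ with hIdef
  have hmem : ∀ p ∈ I, p.1 ∈ Hs ∧ p.2.1 ∈ Ioc R (2 * R) ∧ p.2.2.1 ∈ Ioc S (2 * S) ∧
      p.2.2.2 ∈ Ioc S (2 * S) ∧ γ p.1 p.2.1 p.2.2.1 p.2.2.2 ≠ 0 ∧
      Nat.gcd p.2.2.1 p.2.2.2 = g := by
    intro p hp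
    rw [hIdef, Nse_I, mem_filter, mem_product, mem_product, mem_product] at hp
    exact ⟨hp.1.1, hp.1.2.1, hp.1.2.2.1, hp.1.2.2.2, hp.2.1, hp.2.2⟩
  have hsu : ∀ p ∈ I, SuN ρ R0 R S p.2.1 p.2.2.1 p.2.2.2 := by
    intro p hp
    obtain ⟨k1, k2, k3, k4, k5, -⟩ := hmem p hp
    exact hSu _ _ _ _ k1 k2 k3 k4 k5
  have hcls := Nse_cls I (Ioc R0 (2 * R0)) (fun p => ρ p.2.1)
    (by
      intro p hp
      obtain ⟨-, -, -, -, k1, k2⟩ := hsu p hp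
      exact mem_Ioc.mpr ⟨k1, k2⟩)
    (fun p => γ p.1 p.2.1 p.2.2.1 p.2.2.2 *
      ∑ n ∈ (Ioc N (2 * N)) ×ˢ (Ioc N (2 * N)), ω n.1 n.2 * Fr a t0 g p n)
    (3072 * T ^ 4 * (D * (N : ℝ) ^ 2 * (R : ℝ) ^ 2 * (S : ℝ) ^ 2 * (H : ℝ) ^ 2) *
      (Real.sqrt W0 / (ε * (g : ℝ) ^ 2) + ε * (S : ℝ) ^ 2 / (R0 * (g : ℝ) ^ 5)) / (R0 : ℝ) ^ 2) (by
      intro c _
      refine h1 X T D ε W0 a ρ c g R S N H R0 t0 Hs (I.filter (fun p => ρ p.2.1 = c))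
        (fun p => γ p.1 p.2.1 p.2.2.1 p.2.2.2) (fun n => ω n.1 n.2) hT hD hε hW hg hR hS hN hH hR0
        hRN hX hHs ?_ (fun p _ => hγ _ _ _ _) (fun n => hω _ _) ?_ ?_
      · intro p hp
        rw [mem_filter] at hp
        obtain ⟨k1, -, -, -, -, k6⟩ := hmem p hp.1
        exact ⟨k1, k6, hsu p hp.1, hp.2⟩
      · intro p hp p' hp'
        rw [mem_filter] at hp hp'
        obtain ⟨k1, -, -, -, k5, k6⟩ := hmem p hp.1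
        obtain ⟨l1, -, -, -, l5, l6⟩ := hmem p' hp'.1
        rw [Nse_pr]
        exact (hpair _ _ _ _ _ _ _ _ k1 l1 k5 l5 k6 l6 (hsu p hp.1) (hsu p' hp'.1)
          (hp.2.trans hp'.2.symm)).1
      · intro p hp p' hp' hw
        rw [mem_filter] at hp hp'
        obtain ⟨k1, -, -, -, k5, k6⟩ := hmem p hp.1
        obtain ⟨l1, -, -, -, l5, l6⟩ := hmem p' hp'.1
        rw [Nse_pr]
        exact (hpair _ _ _ _ _ _ _ _ k1 l1 k5 l5 k6 l6 (hsu p hp.1) (hsu p' hp'.1)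
          (hp.2.trans hp'.2.symm)).2 hw)
  refine hcls.trans (le_of_eq ?_)
  rw [Nat.card_Ioc]
  have e1 : 2 * R0 - R0 = R0 := by omega
  rw [e1]
  field_simp

end Pool.Agent.Lib.NLS
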