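import Pool.Agent.Lib.NLS.SpecS

set_option autoImplicit false

/-!
MP_00e23e_nt, project NL, chapter S, module Nsz: the number of indices.
-/

namespace Pool.Agent.Lib.NLS

open Finset Pool.Agent.Lib.EH3 Pool.Agent.Lib.TB Pool.Agent.Results.MP_00e23e_nt Pool.Agent.Lib.MI

private lemma Nsz_hs (H : ℕ) (Hs : Finset ℤ) (h : ∀ h ∈ Hs, h ≠ 0 ∧ |h| ≤ (H : ℤ)) : Hs.card ≤ 2 * H := by
  have hsub : Hs ⊆ (Icc (-(H : ℤ)) (H : ℤ)).erase 0 := by
    intro x hx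
    obtain ⟨h0, h1⟩ := h x hx
    rw [abs_le] at h1
    rw [mem_erase, mem_Icc]
    exact ⟨h0, h1⟩
  have h1 := card_le_card hsub
  rw [card_erase_of_mem (by rw [mem_Icc]; constructor <;> omega), Int.card_Icc] at h1
  omega

theorem tNsz : NszStmt := by
  intro ρ ϱ g R0 R S H Hs I hg hR0 hHs hI
  rcases I.eq_empty_or_nonempty with hE | hne
  · rw [hE]
    simp only [card_empty, Nat.cast_zero]
    positivity
  obtain ⟨p0, hp0⟩ := hne
  have hϱ : R0 < ϱ := by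
    obtain ⟨_, _, hS, hr⟩ := hI p0 hp0
    have := hS.2.2.2.2.1
    rw [hr] at this
    exact this
  have hsub : I ⊆ Hs ×ˢ (((Ioc 0 (2 * R)).filter (fun x => ϱ ∣ x)) ×ˢ
      (((Ioc 0 (2 * S)).filter (fun x => g ∣ x)) ×ˢ ((Ioc 0 (2 * S)).filter (fun x => g ∣ x)))) := by
    intro p hp
    obtain ⟨h1, h2, h3, h4⟩ := hI p hp
    obtain ⟨⟨a1, a2⟩, ⟨b1, b2⟩, ⟨c1, c2⟩, d1, d2, d3⟩ := h3
    rw [h4] at d1
    rw [mem_product, mem_product, mem_product, mem_filter, mem_filter, mem_filter, mem_Ioc, mem_Ioc, mem_Ioc]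
    refine ⟨h1, ⟨⟨by omega, a2⟩, d1⟩, ⟨⟨by omega, b2⟩, ?_⟩, ⟨by omega, c2⟩, ?_⟩
    · rw [← h2]; exact Nat.gcd_dvd_left _ _
    · rw [← h2]; exact Nat.gcd_dvd_right _ _
  have hc := card_le_card hsub
  rw [card_product, card_product, card_product, Nat.Ioc_filter_dvd_card_eq_div, Nat.Ioc_filter_dvd_card_eq_div] at hc
  have hH := Nsz_hs H Hs hHs
  have hR0' : (0 : ℝ) < (R0 : ℝ) := by exact_mod_cast (by omega : 0 < R0)
  have hg' : (0 : ℝ) < (g : ℝ) := by exact_mod_cast (by omega : 0 < g)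
  have e1 : ((2 * R / ϱ : ℕ) : ℝ) ≤ 2 * (R : ℝ) / R0 := by
    refine le_trans Nat.cast_div_le ?_
    push_cast
    apply div_le_div_of_nonneg_left (by positivity) hR0'
    exact_mod_cast hϱ.le
  have e2 : ((2 * S / g : ℕ) : ℝ) ≤ 2 * (S : ℝ) / g := by
    refine le_trans Nat.cast_div_le ?_
    push_cast
    exact le_refl _
  have hc' : (I.card : ℝ) ≤ (Hs.card : ℝ) * (((2 * R / ϱ : ℕ) : ℝ) * (((2 * S / g : ℕ) : ℝ) * ((2 * S / g : ℕ) : ℝ))) := by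
    exact_mod_cast hc
  have hH' : (Hs.card : ℝ) ≤ 2 * (H : ℝ) := by exact_mod_cast hH
  refine le_trans hc' ?_
  have e3 : (((2 * S / g : ℕ) : ℝ) * ((2 * S / g : ℕ) : ℝ)) ≤ (2 * (S : ℝ) / g) * (2 * (S : ℝ) / g) :=
    mul_le_mul e2 e2 (Nat.cast_nonneg _) (by positivity)
  have e4 : ((2 * R / ϱ : ℕ) : ℝ) * (((2 * S / g : ℕ) : ℝ) * ((2 * S / g : ℕ) : ℝ)) ≤
      (2 * (R : ℝ) / R0) * ((2 * (S : ℝ) / g) * (2 * (S : ℝ) / g)) :=
    mul_le_mul e1 e3 (by positivity) (by positivity)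
  refine le_trans (mul_le_mul hH' e4 (by positivity) (by positivity)) (le_of_eq ?_)
  field_simp
  ring

end Pool.Agent.Lib.NLS
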