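import Pool.Agent.Lib.NLS.Nbx
import Pool.Agent.Lib.NLS.Nlb
import Pool.Agent.Lib.NLS.Nnr
import Pool.Agent.Lib.NLS.Nrh
import Pool.Agent.Lib.NLS.Nse
import Pool.Agent.Lib.NLS.Nsz
import Pool.Agent.Lib.NL.Sab

/-!
MP_00e23e_nt, project NL (all classes, no lock), chapter S (helper78): the final statement without hypotheses.
-/

set_option autoImplicit false

namespace Pool.Agent.Lib.NLS

theorem aSecN : SecNStmt := tNse (tNrh NL.tSab tNlb tNbx tNsz tNnr)

end Pool.Agent.Lib.NLS
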