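import Pool.Agent.Lib.NLS.SpecS

/-!
MP_00e23e_nt, project NL, chapter S: points of the box in a class of ratios (NbxStmt).
-/

set_option autoImplicit false

namespace Pool.Agent.Lib.NLS

open Finset Pool.Agent.Lib.EH3 Pool.Agent.Lib.TB Pool.Agent.Results.MP_00e23e_nt Pool.Agent.Lib.MI

private lemma Nbx_cls (N q : ℕ) (F : Finset ℕ) (hF : ∀ n ∈ F, N < n ∧ n ≤ 2 * N)
    (hc : ∀ n ∈ F, ∀ m ∈ F, (q : ℤ) ∣ (n : ℤ) - m) : F.card ≤ N / q + 1 := by
  have h1 : F.card ≤ (range (N / q + 1)).card := by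
    refine Finset.card_le_card_of_injOn (fun n => (n - (N + 1)) / q) ?_ ?_
    · intro n hn
      have h := hF n hn
      rw [Finset.coe_range, Set.mem_Iio]
      have h2 : (n - (N + 1)) / q ≤ N / q := Nat.div_le_div_right (by omega)
      exact Nat.lt_succ_of_le h2
    · intro n hn m hm hnm
      have hn1 := hF n hn
      have hm1 := hF m hm
      have hnm : (n - (N + 1)) / q = (m - (N + 1)) / q := hnm
      have h2 : m ≡ n [MOD q] := by
        rw [← Int.natCast_modEq_iff, Int.modEq_iff_dvd]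
        exact hc n hn m hm
      have h3 : (m - (N + 1)) + (N + 1) ≡ (n - (N + 1)) + (N + 1) [MOD q] := by
        rw [Nat.sub_add_cancel (by omega), Nat.sub_add_cancel (by omega)]
        exact h2
      have h4 : (m - (N + 1)) % q = (n - (N + 1)) % q := Nat.ModEq.add_right_cancel' _ h3
      have h5 := Nat.div_add_mod (n - (N + 1)) q
      have h6 := Nat.div_add_mod (m - (N + 1)) q
      rw [hnm, ← h4, h6] at h5
      omega
  rwa [Finset.card_range] at h1

theorem tNbx : NbxStmt := by
  intro N m l hm hmN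
  obtain ⟨S, hS⟩ : ∃ S, S = ((Ioc N (2 * N)) ×ˢ (Ioc N (2 * N))).filter
    (fun n => (m : ℤ) ∣ (n.1 : ℤ) - l * n.2) := ⟨_, rfl⟩
  rw [← hS]
  have hmaps : (S : Set (ℕ × ℕ)).MapsTo Prod.snd (Ioc N (2 * N) : Finset ℕ) := by
    intro n hn
    rw [Finset.mem_coe, hS, Finset.mem_filter, Finset.mem_product] at hn
    exact hn.1.2
  have hfib : ∀ b ∈ Ioc N (2 * N), (S.filter (fun n => n.2 = b)).card ≤ N / m + 1 := by
    intro b _
    have h1 : (S.filter (fun n => n.2 = b)).card = ((S.filter (fun n => n.2 = b)).image Prod.fst).card := by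
      symm
      apply Finset.card_image_of_injOn
      intro x hx y hy hxy
      rw [Finset.mem_coe, Finset.mem_filter] at hx hy
      exact Prod.ext hxy (hx.2.trans hy.2.symm)
    rw [h1]
    apply Nbx_cls N m
    · intro n hn
      rw [Finset.mem_image] at hn
      obtain ⟨x, hx, rfl⟩ := hn
      rw [Finset.mem_filter, hS, Finset.mem_filter, Finset.mem_product] at hx
      exact Finset.mem_Ioc.mp hx.1.1.1
    · intro n hn n' hn'
      rw [Finset.mem_image] at hn hn'
      obtain ⟨x, hx, rfl⟩ := hn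
      obtain ⟨y, hy, rfl⟩ := hn'
      rw [Finset.mem_filter, hS, Finset.mem_filter] at hx hy
      have h2 := hx.1.2
      have h3 := hy.1.2
      rw [hx.2] at h2
      rw [hy.2] at h3
      have h4 : ((x.1 : ℤ) - y.1) = ((x.1 : ℤ) - l * b) - ((y.1 : ℤ) - l * b) := by ring
      rw [h4]
      exact dvd_sub h2 h3
  have hcard : S.card ≤ N * (N / m + 1) := by
    rw [Finset.card_eq_sum_card_fiberwise hmaps]
    calc ∑ b ∈ Ioc N (2 * N), (S.filter (fun n => n.2 = b)).card
        ≤ (Ioc N (2 * N)).card • (N / m + 1) := Finset.sum_le_card_nsmul _ _ _ hfib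
      _ = N * (N / m + 1) := by
          rw [Nat.card_Ioc, smul_eq_mul]
          have : 2 * N - N = N := by omega
          rw [this]
  have h5 : m * (N / m) ≤ N := Nat.mul_div_le N m
  calc m * S.card ≤ m * (N * (N / m + 1)) := Nat.mul_le_mul_left _ hcard
    _ = N * (m * (N / m) + m) := by ring
    _ ≤ N * (N + N) := Nat.mul_le_mul_left _ (by omega)
    _ = 2 * N ^ 2 := by ring

end Pool.Agent.Lib.NLS
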