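import Pool.Agent.Lib.NLS.DefS
import Pool.Agent.Lib.NL.Cor

/-!
MP_00e23e_nt, project NL (all classes, no lock), chapter S (helper78): modules of the second Cauchy inequality without lock. Final
statement SecNStmt (NLS/DefS.lean). The abstract core is NL.SabStmt (Lib/NL/Cor.lean, proved by helper2 in Lib/NL/Sab.lean).

IDEA. Fix ρ. Indices p = (h, r, s1, s2), r = ρ q; F_p(n) ≠ 0 implies n1 ≡ λ n2 modulo ρ g k with λ = a(r,s1)/a(r,s2), for every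
k ∣ q (the label). The near indices are counted by A = q (s1/g) (s2/g). Then NL.SabStmt.

RULES. Module X: file Pool/Agent/Lib/NLS/X.lean, first line `import Pool.Agent.Lib.NLS.SpecS`, then
`namespace Pool.Agent.Lib.NLS` and `open Finset Pool.Agent.Lib.EH3 Pool.Agent.Lib.TB Pool.Agent.Results.MP_00e23e_nt Pool.Agent.Lib.MI`,
private lemmas with names starting with X_ (they must be private), final theorem `theorem tX (h1 : AStmt) ... : XStmt`; the statements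
listed under Uses are hypotheses of your theorem, in this order. The docstring contains a complete proof. Definitions: MI/Defs.lean
(Tau), SL/SpecD.lean (Gg, fg, TG), SL/DefC.lean (Fp), SLN/DefN.lean (An, Wn, PS), NL/Cor.lean (Ip, Pr, Cor, SabStmt). Never use congr!.
Every module below 60 s. The constants are generous.
-/

namespace Pool.Agent.Lib.NLS

open Finset Pool.Agent.Lib.EH3 Pool.Agent.Lib.TB Pool.Agent.Results.MP_00e23e_nt Pool.Agent.Lib.MI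

/-- the label of (r, s1, s2) modulo m: a(r,s1)/a(r,s2) -/
noncomputable def lb (a : ℕ → ℕ → ℤ) (m r s1 s2 : ℕ) : ℕ := ((a r s1 : ZMod m) * (a r s2 : ZMod m)⁻¹).val

/-- Module Nlb (theorem tNlb; labels). Uses: nothing.
Proof. r s1 squarefree, so r, s1, g = gcd(s1, s2) ≠ 0 and m ≥ 1 (NeZero m). m ∣ r g ∣ r s2 (g ∣ s2). a(r,s2) is coprime to r s2, so it is a unit modulo m (Int.gcd = 1), and n2 is coprime to r s2, so it is a unit modulo m. The congruence of Gg modulo m: n1 a(r,s2) = n2 a(r,s1) in ZMod m. So n1 n2^(-1) = a(r,s1) a(r,s2)^(-1) (multiply; ZMod.mul_inv_of_unit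
or ZMod.coe_mul_inv_eq_one), and n1 = (a(r,s1) a(r,s2)^(-1)) n2; the cast of val is the element (ZMod.natCast_zmod_val). -/
def NlbStmt : Prop := ∀ (a : ℕ → ℕ → ℤ) (g r s1 s2 n1 n2 m : ℕ), SL.Gg a g r s1 s2 n1 n2 → m ∣ r * g →
  lb a m r s1 s2 = ((n1 : ZMod m) * (n2 : ZMod m)⁻¹).val ∧ (m : ℤ) ∣ (n1 : ℤ) - (lb a m r s1 s2 : ℤ) * n2

/-- Module Nbx (theorem tNbx; points of the box in a class of ratios). Uses: nothing.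
Proof. For every n2 the n1 ∈ Ioc N 2N with n1 ≡ l n2 modulo m are ≤ N/m + 1 (two of them differ by a multiple of m; Nat.Ioc_filter_modEq_card or Int.Ioc_filter_modEq_card, or count via the quotients), and m (N/m + 1) ≤ N + m ≤ 2N. There are N values of n2. -/
def NbxStmt : Prop := ∀ (N m : ℕ) (l : ℤ), 1 ≤ m → m ≤ N →
  m * (((Ioc N (2 * N)) ×ˢ (Ioc N (2 * N))).filter (fun n => (m : ℤ) ∣ (n.1 : ℤ) - l * n.2)).card ≤ 2 * N ^ 2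

/-- the indices with ρ r = ϱ -/
def In (ρ : ℕ → ℕ) (ϱ g R0 R S : ℕ) (Hs : Finset ℤ) (I : Finset NL.Ip) : Prop :=
  ∀ p ∈ I, p.1 ∈ Hs ∧ Nat.gcd p.2.2.1 p.2.2.2 = g ∧ SuN ρ R0 R S p.2.1 p.2.2.1 p.2.2.2 ∧ ρ p.2.1 = ϱ

/-- Module Nsz (theorem tNsz; the number of indices). Uses: nothing.
Proof. I = ∅: fine. I is contained in Hs ×ˢ (multiples of ϱ in Ioc R 2R) ×ˢ (multiples of g in Ioc S 2S)^2. card Hs ≤ 2H (nonzero integers with |h| ≤ H: Hs ⊆ (Icc (-H) H).erase 0). The multiples of ϱ in Icc 1 2R: 2R/ϱ ≤ 2R/R0 (ϱ > R0); the multiples of g in Icc 1 2S: ≤ 2S/g (Nat.card_multiples or Nat.Ioc_filter_dvd_card_eq_div). Product 2H (2R/R0) (2S/g)^2. -/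
def NszStmt : Prop := ∀ (ρ : ℕ → ℕ) (ϱ g R0 R S H : ℕ) (Hs : Finset ℤ) (I : Finset NL.Ip), 1 ≤ g → 1 ≤ R0 →
  (∀ h ∈ Hs, h ≠ 0 ∧ |h| ≤ (H : ℤ)) → In ρ ϱ g R0 R S Hs I →
  (I.card : ℝ) ≤ 16 * ((H : ℝ) * R * (S : ℝ) ^ 2) / (R0 * (g : ℝ) ^ 2)

open Classical in
/-- Module Nnr (theorem tNnr; near indices). Uses: nothing.
Proof. p ∈ I fixed, A = An p, q = r/ϱ. For p' near: A' = An p' = q' (s1'/g) (s2'/g), all factors ≥ 1. ϱ q = r, g (s_i/g) = s_i, so A ϱ g^2 = r s1 s2 > R S^2 and A' ϱ g^2 = r' s1' s2' ≤ 8 R S^2 < 8 A ϱ g^2: A' < 8 A. d = gcd(A, A'): A = d u, A' = d u', u u' = Wn ≤ W0, u' < 8 u, so u'^2 ≤ 8 W0, u' ≤ √(8 W0) ≤ 3 √W0. So A' = d u' is in a set of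
≤ T 3 √W0 numbers (d ∈ divisors A, card ≤ T since 1 ≤ A ≤ X; u' ∈ Icc 1 ⌊3 √W0⌋). For a given A' ≤ X: q' and s1'/g are divisors of A' (≤ T each), s2'/g = A'/(q' (s1'/g)), h' ∈ Hs (card ≤ 2H); p' = (h', ϱ q', g (s1'/g), g (s2'/g)) is determined. Total ≤ 3 T √W0 T^2 2H. (A, A' ≤ 8 R S^2 ≤ X.) Use
card_le_card_of_injOn or card_biUnion_le. -/
def NnrStmt : Prop := ∀ (X T W0 : ℝ) (ρ : ℕ → ℕ) (ϱ g R0 R S H : ℕ) (Hs : Finset ℤ) (I : Finset NL.Ip), Tau X T →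
  1 ≤ W0 → 1 ≤ g → 1 ≤ R0 → 8 * ((R : ℝ) * (S : ℝ) ^ 2) ≤ X → (∀ h ∈ Hs, h ≠ 0 ∧ |h| ≤ (H : ℤ)) → In ρ ϱ g R0 R S Hs I →
  ∀ p ∈ I, ((I.filter (fun p' => (SLN.Wn (SLN.An g (p.2.1 / ρ p.2.1) p.2.2.1 p.2.2.2)
    (SLN.An g (p'.2.1 / ρ p'.2.1) p'.2.2.1 p'.2.2.2) : ℝ) ≤ W0)).card : ℝ) ≤ 6 * T ^ 3 * Real.sqrt W0 * H

open Classical in
/-- the term of the index p at n, restricted to gcd(n1, n2) ≤ t0 -/
noncomputable def Fr (a : ℕ → ℕ → ℤ) (t0 g : ℕ) (p : NL.Ip) (n : ℕ × ℕ) : ℂ :=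
  if Nat.gcd n.1 n.2 ≤ t0 then SL.Fp a g p.1 p.2.1 p.2.2.1 p.2.2.2 n.1 n.2 else 0

open Classical in
/-- Module Nrh (theorem tNrh; the sum for one ϱ). Uses: NL.SabStmt, NlbStmt, NbxStmt, NszStmt, NnrStmt.
Proof. If I is empty the left side is 0. Otherwise R0 < ϱ ≤ 2 R0. NL.SabStmt with γ' p := if p ∈ I then γ p else 0, J = Ioc N 2N ×ˢ Ioc N 2N, F = Fr a t0 g, q p = p.2.1/ρ p.2.1, lab k p = lb a (ϱ g k) p.2.1 p.2.2.1 p.2.2.2, near p p' = (Wn .. ≤ W0), Qm = 2R/R0, Nn = 6 T^3 √W0 H, K0 = 2N^2/(R0 g), K1 = 2 R0 g. The conditions of NL.Cor: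
hq: p ∈ I: ϱ (q p) = r ≤ 2R, so 1 ≤ q p ≤ 2R/R0 = Qm ≤ X. hJ for k, l: if no p ∈ I has k ∣ q p take J' = ∅. Otherwise m = ϱ g k ≤ ϱ g q p = r g ≤ 2R g ≤ N, J' = the filter of Nbx with l: m card J' ≤ 2N^2 and m ≥ R0 g k, so card J' ≤ K0/k; if F p n ≠ 0 then Gg holds and n ∈ J' by Nlb (second part; m ∣ r g). hK: lb a (ϱ g) .. < ϱ g ≤ 2 R0 g (ZMod.val_lt), so the
image is contained in range (ϱ g). hN: Nnr. hl: Pr ≠ 0 gives n ∈ J with F p n ≠ 0 and F p' n ≠ 0, so Gg for both; for k ∣ q p, q p': m = ϱ g k divides r g and r' g, Nlb (first part): both labels are (n1/n2).val. hD, hF: hypotheses. Result, with card I ≤ 16 H R S^2/(R0 g^2) =: I0 (Nsz):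
4 K0 K1 I0 D T Qm Nn/ε + 4 K0 D ε T^2 I0^2 = 3072 D T^4 N^2 R^2 S^2 H^2 √W0/(R0^2 g^2 ε) + 2048 D ε T^2 N^2 R^2 S^4 H^2/(R0^3 g^5). -/
def NrhStmt : Prop := ∀ (X T D ε W0 : ℝ) (a : ℕ → ℕ → ℤ) (ρ : ℕ → ℕ) (ϱ g R S N H R0 t0 : ℕ) (Hs : Finset ℤ)
    (I : Finset NL.Ip) (γ : NL.Ip → ℂ) (ω : ℕ × ℕ → ℂ), Tau X T →
  0 ≤ D → 0 < ε → 1 ≤ W0 → 1 ≤ g → 1 ≤ R → 1 ≤ S → 1 ≤ N → 1 ≤ H → 1 ≤ R0 → 2 * R * g ≤ N →
  8 * ((R : ℝ) * (S : ℝ) ^ 2) ≤ X → (∀ h ∈ Hs, h ≠ 0 ∧ |h| ≤ (H : ℤ)) → In ρ ϱ g R0 R S Hs I →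
  (∀ p ∈ I, ‖γ p‖ ≤ 1) → (∀ n, ‖ω n‖ ≤ 1) →
  (∀ p ∈ I, ∀ p' ∈ I, NL.Pr ((Ioc N (2 * N)) ×ˢ (Ioc N (2 * N))) (Fr a t0 g) p p' ≤
    D * (Nat.gcd (p.2.1 / ρ p.2.1) (p'.2.1 / ρ p'.2.1) : ℝ)) →
  (∀ p ∈ I, ∀ p' ∈ I, W0 < (SLN.Wn (SLN.An g (p.2.1 / ρ p.2.1) p.2.2.1 p.2.2.2)
    (SLN.An g (p'.2.1 / ρ p'.2.1) p'.2.2.1 p'.2.2.2) : ℝ) →
    NL.Pr ((Ioc N (2 * N)) ×ˢ (Ioc N (2 * N))) (Fr a t0 g) p p' ≤
    D * ε * (Nat.gcd (p.2.1 / ρ p.2.1) (p'.2.1 / ρ p'.2.1) : ℝ)) →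
  ‖∑ p ∈ I, γ p * ∑ n ∈ (Ioc N (2 * N)) ×ˢ (Ioc N (2 * N)), ω n * Fr a t0 g p n‖ ^ 2 ≤
    3072 * T ^ 4 * (D * (N : ℝ) ^ 2 * (R : ℝ) ^ 2 * (S : ℝ) ^ 2 * (H : ℝ) ^ 2) *
    (Real.sqrt W0 / (ε * (g : ℝ) ^ 2) + ε * (S : ℝ) ^ 2 / (R0 * (g : ℝ) ^ 5)) / (R0 : ℝ) ^ 2

/-- Module Nse (theorem tNse). FINAL STATEMENT SecNStmt (NLS/DefS.lean). Uses: NrhStmt. MODEL: the first lemmas of Lib/SLH/Hse.lean (Hse_I, Hse_in, Hse_om, Hse_pr, Hse_split, Hse_cls).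
Proof. I = the set of the p = (h, r, s1, s2) ∈ Hs × Ioc R 2R × Ioc S 2S × Ioc S 2S with γ ≠ 0 and gcd(s1, s2) = g; J = Ioc N 2N ×ˢ Ioc N 2N. ∑_h TG = ∑_{p ∈ I} γ p ∑_{n ∈ J} ω n Fr p n (Gg contains gcd(s1,s2) = g; ω n = 0 if gcd(n1,n2) > t0). p ↦ ρ p.2.1 maps I into Ioc R0 2R0 (R0 elements): the square of the sum is ≤
R0^2 max_ϱ ‖S_ϱ‖^2 (Hse_cls is similar), S_ϱ = the sum over I.filter (ρ r = ϱ): Nrh. NL.Pr J Fr p p' = ‖SLN.PS ..‖ (Fr Fr'* = if gcd ≤ t0 then Fp Fp'* else 0; sum_product). C = 3072, A = 4. -/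
def NseStmt : Prop := SecNStmt

end Pool.Agent.Lib.NLS
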